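import Pool.Agent.H456.BQ.Out

/-!
# The average rank of all elliptic curves over `F(t)`, `F` a finite field of odd characteristic

The definitions `Eqn` (equations with `deg aᵢ ≤ i d`) and `cls` (isomorphism class over `F(t)`) are in
`Pool.Agent.H456.RN.Defs`.
-/

open Polynomial Pool.Agent.H456.EC

namespace Pool.Agent.Results.MP_81dc49_nt.AverageRankOddCharacteristic

section

variable {K : Type} [Field K]

open Classical in
/-- the order of `E(K) / 2 E(K)` -/
noncomputable def orderModTwo (E : WeierstrassCurve K) : ℕ :=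
  Nat.card (E.toAffine.Point ⧸ (nsmulAddMonoidHom (α := E.toAffine.Point) 2).range)

open Classical in
/-- the rank of `E(K)` -/
noncomputable def rank (E : WeierstrassCurve K) : ℕ := Module.finrank ℤ E.toAffine.Point

open Classical in
/-- `E(K)` is finitely generated -/
def IsFG (E : WeierstrassCurve K) : Prop := AddGroup.FG E.toAffine.Point

end

/-- Let `F` be a finite field of odd characteristic with `q` elements, `K = F(t)`. The isomorphism classes `κ` of elliptic
curves over `K` of height at most `q^d` form a finite nonempty set `cls '' Eqn F d`; `κ.out` is a curve in the class `κ`.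
All groups `E(K)` are finitely generated, and for every `ε > 0` and all sufficiently large `d`: the average over the classes
of the order of `E(K) / 2 E(K)` is at most `3 + ε`, the average of the rank is at most `3/2 + ε`, and the rank is zero or
one for a proportion of at least `1/3 - ε` of the classes. -/
theorem result (F : Type) [Field F] [Fintype F] (h2 : (2 : F) ≠ 0) :
    (∀ d : ℕ, (cls '' Eqn F d).Finite) ∧ (∀ d : ℕ, 1 ≤ d → (cls '' Eqn F d).Nonempty) ∧
    ∀ ε : ℝ, 0 < ε → ∃ d₀ : ℕ, ∀ d ≥ d₀,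
      (∀ κ ∈ cls '' Eqn F d, IsFG κ.out) ∧
      ∑ᶠ κ ∈ cls '' Eqn F d, (orderModTwo κ.out : ℝ) ≤ (3 + ε) * ((cls '' Eqn F d).ncard : ℝ) ∧
      ∑ᶠ κ ∈ cls '' Eqn F d, (rank κ.out : ℝ) ≤ (3 / 2 + ε) * ((cls '' Eqn F d).ncard : ℝ) ∧
      (1 / 3 - ε) * ((cls '' Eqn F d).ncard : ℝ) ≤
        (({κ | κ ∈ cls '' Eqn F d ∧ rank κ.out ≤ 1}).ncard : ℝ) :=
  ⟨Pool.Agent.H456.BQ.finite_cls, fun _ hd => Pool.Agent.H456.BQ.ne_cls h2 hd,
    fun ε hε => Pool.Agent.H456.BQ.final Pool.Agent.H456.BQ.hyp_all h2 ε hε⟩

end Pool.Agent.Results.MP_81dc49_nt.AverageRankOddCharacteristic
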