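import Pool.Agent.H456.PS.Out10

/-!
# The 2-Selmer groups and the ranks in height ordered families of elliptic curves over `F_q(t)` of positive density

`Eqn F d` (equations with `deg aᵢ ≤ i d`) and `cls` (isomorphism class over `F(t)`) are in `Pool.Agent.H456.RN.Defs`;
`SelTwo` (the 2-Selmer group), `rank`, `law`, `share` (proportion) and `mean` (average) in `Pool.Agent.H456.Pub.Law`,
`Pool.Agent.H456.Pub.Law2`, `Pool.Agent.H456.Pub.Mean` and `Pool.Agent.H456.Pub.Def`; `Starred` in
`Pool.Agent.H456.Pub.Star` and `starUnion` in `Pool.Agent.H456.Pub.Star2`.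
-/

open Polynomial Filter Pool.Agent.H456.EC
open Pool.Agent.H456.Pub (SelTwo rank law share mean starUnion)

namespace Pool.Agent.Results.MP_81dc49_nt.RanksInStarredFamilies

/-- Let `F` be a finite field of odd characteristic, `K = F(t)` and `ε > 0`. There is `k₀` such that for every nonempty set
`A` of integers `k ≥ k₀` the elliptic curves over `K` whose starred fibres at the finite places have total degree `2 k` for
some `k` in `A` have positive lower density among all elliptic curves over `K` ordered by height, and for all sufficiently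
large `d`, among those of height at most `q ^ d`: for every `j` the proportion of the `E` whose 2-Selmer group has order
`2 ^ j` differs by at most `ε` from `∏_{i ≥ 0} (1 + 2⁻ⁱ)⁻¹ ∏_{1 ≤ i ≤ j} 2 / (2ⁱ - 1)`, the group `E(K)` is finite for at
least `20.97 % - ε` of the `E`, its rank is at most `1` for at least `62.9 % - 2 ε` of the `E`, and the average rank is at
most `1.265 + ε`. -/
theorem result (F : Type) [Field F] [Fintype F] (h2 : (2 : F) ≠ 0) (ε : ℝ) (hε : 0 < ε) :
    ∃ k₀ : ℕ, ∀ A : Set ℕ, A.Nonempty → (∀ k ∈ A, k₀ ≤ k) →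
      (∃ δ : ℝ, 0 < δ ∧ ∀ᶠ d : ℕ in atTop, δ * ((cls '' Eqn F d).ncard : ℝ) ≤ ((starUnion F A d).ncard : ℝ)) ∧
      ∀ᶠ d : ℕ in atTop,
        (∀ j : ℕ, |share (starUnion F A d) (fun κ => Nat.card (SelTwo κ.out) = 2 ^ j) - law j| ≤ ε) ∧
        0.2097 - ε ≤ share (starUnion F A d) (fun κ => Finite κ.out.toAffine.Point) ∧
        0.629 - 2 * ε ≤ share (starUnion F A d) (fun κ => rank κ.out ≤ 1) ∧
        mean (starUnion F A d) (fun κ => rank κ.out) ≤ 1.265 + ε :=
  Pool.Agent.H456.PS.union_ranks h2 ε hε

end Pool.Agent.Results.MP_81dc49_nt.RanksInStarredFamilies
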