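import Pool.Agent.H456.PS.All2

/-!
# The 2-Selmer groups and the ranks of all squarefree twists of 100 % of the elliptic curves over `F_q(t)`

`Eqn F d` (equations with `deg aᵢ ≤ i d`) and `cls` (isomorphism class over `F(t)`) are in `Pool.Agent.H456.RN.Defs`;
`SelTwo` (the 2-Selmer group), `twistP` (quadratic twist), `rank`, `law`, `sqf` (the squarefree polynomials of given
degree), `share` (proportion) and `mean` (average) in `Pool.Agent.H456.Pub.Law`, `Pool.Agent.H456.Pub.Law2`,
`Pool.Agent.H456.Pub.Mean` and `Pool.Agent.H456.Pub.Def`.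
-/

open Polynomial Filter Pool.Agent.H456.EC
open Pool.Agent.H456.Pub (twistP SelTwo rank law sqf share mean)

namespace Pool.Agent.Results.MP_81dc49_nt.RanksOfAllTwists

/-- Let `F` be a finite field of odd characteristic, `K = F(t)` and `ε > 0`. There is `k₀` such that for every `k ≥ k₀` and
all sufficiently large `d` all but at most the proportion `ε` of the elliptic curves `E` over `K` of height at most `q ^ d`
have the following property, where `D` runs through all squarefree polynomials of degree `2 k`: for every `j` the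
proportion of the `D` for which the 2-Selmer group of the quadratic twist `E^D` has order `2 ^ j` differs by at most `ε`
from `∏_{i ≥ 0} (1 + 2⁻ⁱ)⁻¹ ∏_{1 ≤ i ≤ j} 2 / (2ⁱ - 1)`, the group `E^D(K)` is finite for at least `20.97 % - ε` of the
`D`, its rank is at most `1` for at least `62.9 % - 2 ε` of the `D`, and its average rank is at most `1.265 + ε`. -/
theorem result (F : Type) [Field F] [Fintype F] (h2 : (2 : F) ≠ 0) (ε : ℝ) (hε : 0 < ε) :
    ∃ k₀ : ℕ, ∀ k ≥ k₀, (sqf F (2 * k)).Finite ∧ (sqf F (2 * k)).Nonempty ∧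
      ∀ᶠ d : ℕ in atTop, ∃ B ⊆ cls '' Eqn F d, (B.ncard : ℝ) ≤ ε * ((cls '' Eqn F d).ncard : ℝ) ∧
        ∀ κ ∈ cls '' Eqn F d, κ ∉ B →
          (∀ j : ℕ, |share (sqf F (2 * k)) (fun D => Nat.card (SelTwo (twistP κ.out D)) = 2 ^ j) - law j| ≤ ε) ∧
          0.2097 - ε ≤ share (sqf F (2 * k)) (fun D => Finite (twistP κ.out D).toAffine.Point) ∧
          0.629 - 2 * ε ≤ share (sqf F (2 * k)) (fun D => rank (twistP κ.out D) ≤ 1) ∧
          mean (sqf F (2 * k)) (fun D => rank (twistP κ.out D)) ≤ 1.265 + ε := by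
  obtain ⟨k₀, h⟩ := Pool.Agent.H456.PS.sqf_all (F := F) h2 ε hε
  refine ⟨k₀, fun k hk => ⟨(h k hk).1, (h k hk).2.1, (h k hk).2.2.mono fun d hd => ?_⟩⟩
  obtain ⟨B, hB, hc, hκ⟩ := hd
  refine ⟨B, hB, hc, fun κ hk1 hkB => ?_⟩
  obtain ⟨a1, a2, a3, a4, a5⟩ := hκ κ hk1 hkB
  refine ⟨a1, ?_, a4, a5⟩
  have h0 : (0.2097 : ℝ) < law 0 := Pool.Agent.H456.PR.a_num.1
  have b1 := (abs_le.1 a3).1
  have b2 := Pool.Agent.H456.PS.share_mono (h k hk).1 (p := fun D => Finite (twistP κ.out D).toAffine.Point ∧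
    Nat.card (Pool.Agent.H456.Pub.SelInf (twistP κ.out D)) = 1)
    (q := fun D => Finite (twistP κ.out D).toAffine.Point) (fun D _ hD => hD.1)
  linarith

end Pool.Agent.Results.MP_81dc49_nt.RanksOfAllTwists
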