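import Pool.Agent.H456.RN.Fin3

/-!
# Root numbers of elliptic curves over `F(t)`, `F` finite of characteristic three

The definitions used in the statement (`Eqn`, `cls`, `rev`, `LocalSign`, `Standard`, `LocalSystem`, `globalSign`) are
in `Pool.Agent.H456.RN.Defs`.
-/

open Polynomial Filter Pool.Agent.H456.EC

namespace Pool.Agent.Results.MP_81dc49_nt.RootNumberCharThree

/-- Let `F` be a finite field of characteristic three and let `w` be a system of local signs on the elliptic curves over
`F(t)` with the properties of the local root numbers: isomorphism invariant, locally constant at each place, and at all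
but finitely many places equal to `1` for good, `-1` for split multiplicative and `1` for nonsplit multiplicative
reduction. Among the isomorphism classes of elliptic curves over `F(t)` of height at most `q^d`, the proportion of those
with product of local signs `+1` tends to `1/2` as `d → ∞`. -/
theorem result (F : Type) [Field F] [Fintype F] [CharP F 3]
    (w : F[X] → WeierstrassCurve F[X] → ℤ) (winf : WeierstrassCurve F[X] → ℤ) (hw : LocalSystem w winf) :
    Tendsto (fun d : ℕ => ((cls '' {W | W ∈ Eqn F d ∧ globalSign w winf d W = 1}).ncard : ℝ) /
      ((cls '' Eqn F d).ncard : ℝ)) atTop (nhds (1 / 2)) :=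
  density3 hw

end Pool.Agent.Results.MP_81dc49_nt.RootNumberCharThree
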